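import Mathlib

/-!
# Jordan types of local algebras and contiguous partitions (MP_728180_al, Q1)

We prove the negated form of Q1, in greater generality: if `A` is a finite-dimensional commutative
local algebra over a field `k`, with Hilbert function `H = H(A)`, and `ℓ` is any element of its
maximal ideal, then the Jordan type `P_{A,ℓ}` does not strictly dominate the contiguous partition
`P_c(H)`.  Moreover, if `P_{A,ℓ}` dominates `P_c(H)`, then `H` is unimodal.
-/

namespace Pool.Agent.Results.MP_728180_al.NoStrictDominance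

open Module

/-! ### Definitions -/

/-- `P` is the Jordan type of the (nilpotent) endomorphism `f`: there is a basis of `V` made of
strings `b i 0 ↦ b i 1 ↦ ⋯ ↦ b i (p i - 1) ↦ 0`, and `P` is the multiset of the lengths `p i > 0`
of these strings, that is, of the sizes of the Jordan blocks. -/
def IsJordanType {k V : Type*} [Field k] [AddCommGroup V] [Module k V] (f : V →ₗ[k] V)
    (P : Multiset ℕ) : Prop :=
  ∃ (n : ℕ) (p : Fin n → ℕ) (b : Basis (Σ i : Fin n, Fin (p i)) k V),
    (∀ i, 0 < p i) ∧ P = Finset.univ.val.map p ∧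
    ∀ (i : Fin n) (j : Fin (p i)),
      f (b ⟨i, j⟩) = if h : (j : ℕ) + 1 < p i then b ⟨i, ⟨(j : ℕ) + 1, h⟩⟩ else 0

/-- The sum of the `K` largest parts of `P`. -/
noncomputable def topSum (P : Multiset ℕ) (K : ℕ) : ℕ :=
  ((P.sort (· ≥ ·)).take K).sum

/-- The dominance order: `P` dominates `Q`. -/
def Dominates (P Q : Multiset ℕ) : Prop :=
  ∀ K, topSum Q K ≤ topSum P K

/-- `P > Q` in the dominance order. -/
def StrictlyDominates (P Q : Multiset ℕ) : Prop :=
  Dominates P Q ∧ P ≠ Q

/-- The columns `a, a + 1, …, b` form a maximal run of consecutive columns in row `t` of the bar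
graph of `H` (row `t` consists of the columns `u` with `t ≤ H u`). -/
def IsRun (H : ℕ → ℕ) (t a b : ℕ) : Prop :=
  a ≤ b ∧ (∀ u, a ≤ u → u ≤ b → t ≤ H u) ∧ (∀ u, u + 1 = a → H u < t) ∧ H (b + 1) < t

/-- The set of all triples `(t, a, b)` such that `t ≥ 1` and `[a, b]` is a maximal run in
row `t`. -/
def runs (H : ℕ → ℕ) : Set (ℕ × ℕ × ℕ) :=
  {x | 1 ≤ x.1 ∧ IsRun H x.1 x.2.1 x.2.2}

theorem runs_finite {H : ℕ → ℕ} (hH : ∃ N, ∀ w, N ≤ w → H w = 0) : (runs H).Finite := by
  obtain ⟨N, hN⟩ := hH
  refine Set.Finite.subset (Finset.finite_toSet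
    (Finset.range ((Finset.range N).sup H + 1) ×ˢ (Finset.range N ×ˢ Finset.range N))) ?_
  rintro ⟨t, a, b⟩ ⟨ht, hab, hrow, -, -⟩
  have key : ∀ u, a ≤ u → u ≤ b → u < N := by
    intro u h1 h2
    by_contra hcon
    have h3 := hrow u h1 h2
    rw [hN u (not_lt.mp hcon)] at h3
    change 1 ≤ t at ht
    change t ≤ 0 at h3
    omega
  have ha := key a le_rfl hab
  have hb := key b hab le_rfl
  have hta : t ≤ (Finset.range N).sup H :=
    le_trans (hrow a le_rfl hab) (Finset.le_sup (f := H) (Finset.mem_range.mpr ha))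
  simp only [Finset.coe_product, Set.mem_prod, Finset.mem_coe, Finset.mem_range]
  exact ⟨Nat.lt_succ_of_le hta, ha, hb⟩

/-- The contiguous partition `P_c(H)` of a function `H` with finite support: the multiset of the
lengths of the maximal runs of consecutive columns in all rows `t ≥ 1` of the bar graph. -/
noncomputable def contiguousPartition (H : ℕ → ℕ) (hH : ∃ N, ∀ w, N ≤ w → H w = 0) :
    Multiset ℕ :=
  (runs_finite hH).toFinset.val.map fun x => x.2.2 + 1 - x.2.1

/-- `H` is unimodal: there is no `u < v < w` with `H u > H v < H w`. -/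
def IsUnimodal (H : ℕ → ℕ) : Prop :=
  ∀ u v w, u < v → v < w → min (H u) (H w) ≤ H v

/-! ### Combinatorics of partitions -/

/-- The sum of the numbers `p - i` over the parts `p > i` of `P`. -/
def excess (P : Multiset ℕ) (i : ℕ) : ℕ := (P.map fun p => p - i).sum

theorem take_le (i : ℕ) : ∀ (l : List ℕ) (K : ℕ),
    (l.take K).sum ≤ (l.map fun p => p - i).sum + K * i := by
  intro l
  induction l with
  | nil => intro K; simp
  | cons a l ih =>
    intro K
    cases K with
    | zero => simp
    | succ K =>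
      have := ih K
      simp only [List.take_succ_cons, List.sum_cons, List.map_cons]
      have h2 : (K + 1) * i = K * i + i := by ring
      rw [h2]
      omega

theorem exists_take (i : ℕ) : ∀ (l : List ℕ), l.Pairwise (· ≥ ·) →
    ∃ K, (l.map fun p => p - i).sum + K * i = (l.take K).sum := by
  intro l
  induction l with
  | nil => intro _; exact ⟨0, by simp⟩
  | cons a l ih =>
    intro h
    rw [List.pairwise_cons] at h
    by_cases ha : a ≤ i
    · refine ⟨0, ?_⟩
      have hz : ∀ x ∈ (a :: l).map (fun p => p - i), x = 0 := by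
        intro x hx
        rw [List.mem_map] at hx
        obtain ⟨y, hy, rfl⟩ := hx
        have : y ≤ i := by
          rcases List.mem_cons.mp hy with rfl | hy
          · exact ha
          · exact le_trans (h.1 y hy) ha
        omega
      rw [List.sum_eq_zero hz]
      simp
    · obtain ⟨K, hK⟩ := ih h.2
      refine ⟨K + 1, ?_⟩
      simp only [List.take_succ_cons, List.sum_cons, List.map_cons]
      have h2 : (K + 1) * i = K * i + i := by ring
      rw [h2]
      omega

theorem excess_eq_sort (P : Multiset ℕ) (i : ℕ) :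
    excess P i = ((P.sort (· ≥ ·)).map fun p => p - i).sum := by
  unfold excess
  conv_lhs => rw [← Multiset.sort_eq P (· ≥ ·)]
  rw [Multiset.map_coe, Multiset.sum_coe]

theorem excess_le_of_dominates {P Q : Multiset ℕ} (h : Dominates P Q) (i : ℕ) :
    excess Q i ≤ excess P i := by
  rw [excess_eq_sort, excess_eq_sort]
  obtain ⟨K, hK⟩ := exists_take i (Q.sort (· ≥ ·)) (Multiset.pairwise_sort Q (· ≥ ·))
  have h1 := h K
  unfold topSum at h1
  have h2 := take_le i (P.sort (· ≥ ·)) K
  omega

theorem excess_succ (P : Multiset ℕ) (i : ℕ) :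
    excess P i = excess P (i + 1) + P.countP (fun p => i < p) := by
  unfold excess
  induction P using Multiset.induction with
  | empty => simp
  | cons a P ih =>
    rw [Multiset.map_cons, Multiset.sum_cons, Multiset.map_cons, Multiset.sum_cons, ih]
    by_cases h : i < a
    · rw [Multiset.countP_cons_of_pos (p := fun p => i < p) _ h]
      omega
    · rw [Multiset.countP_cons_of_neg (p := fun p => i < p) _ h]
      omega

theorem countP_succ (P : Multiset ℕ) (i : ℕ) :
    P.countP (fun p => i < p) = P.countP (fun p => i + 1 < p) + P.count (i + 1) := by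
  induction P using Multiset.induction with
  | empty => simp
  | cons a P ih =>
    by_cases h1 : i + 1 < a
    · rw [Multiset.countP_cons_of_pos (p := fun p => i < p) _ (by omega : i < a),
        Multiset.countP_cons_of_pos (p := fun p => i + 1 < p) _ h1, ih,
        Multiset.count_cons_of_ne (by omega)]
      omega
    · by_cases h2 : a = i + 1
      · subst h2
        rw [Multiset.countP_cons_of_pos (p := fun p => i < p) _ (by omega : i < i + 1),
          Multiset.countP_cons_of_neg (p := fun p => i + 1 < p) _ h1, ih,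
          Multiset.count_cons_self]
        omega
      · rw [Multiset.countP_cons_of_neg (p := fun p => i < p) _ (by omega : ¬ i < a),
          Multiset.countP_cons_of_neg (p := fun p => i + 1 < p) _ h1, ih,
          Multiset.count_cons_of_ne (by omega)]

theorem eq_of_excess_eq {P Q : Multiset ℕ} (hP : 0 ∉ P) (hQ : 0 ∉ Q)
    (h : ∀ i, excess P i = excess Q i) : P = Q := by
  have h1 : ∀ i, P.countP (fun p => i < p) = Q.countP (fun p => i < p) := by
    intro i
    have e1 := excess_succ P i
    have e2 := excess_succ Q i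
    have e3 := h i
    have e4 := h (i + 1)
    omega
  ext a
  cases a with
  | zero => rw [Multiset.count_eq_zero_of_notMem hP, Multiset.count_eq_zero_of_notMem hQ]
  | succ a =>
    have e1 := countP_succ P a
    have e2 := countP_succ Q a
    have e3 := h1 a
    have e4 := h1 (a + 1)
    omega

/-! ### Combinatorics of the bar graph -/

theorem exists_run {H : ℕ → ℕ} (hH : ∃ N, ∀ w, N ≤ w → H w = 0) {t u : ℕ} (ht : 1 ≤ t)
    (hu : t ≤ H u) : ∃ a b, a ≤ u ∧ u ≤ b ∧ IsRun H t a b := by
  classical
  obtain ⟨N, hN⟩ := hH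
  have hex : ∃ b, u ≤ b ∧ H (b + 1) < t := by
    refine ⟨max u N, le_max_left _ _, ?_⟩
    rw [hN _ (by omega)]
    omega
  have hex2 : ∃ a, a ≤ u ∧ ∀ x, a ≤ x → x ≤ u → t ≤ H x :=
    ⟨u, le_rfl, fun x h1 h2 => by rwa [le_antisymm h2 h1]⟩
  obtain ⟨hb1, hb2⟩ := Nat.find_spec hex
  obtain ⟨ha1, ha2⟩ := Nat.find_spec hex2
  set b := Nat.find hex with hb
  set a := Nat.find hex2 with ha
  have hbmin : ∀ x, u ≤ x → x ≤ b → t ≤ H x := by
    intro x h1 h2
    by_contra hcon
    rcases Nat.lt_or_ge u x with h3 | h3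
    · obtain ⟨y, rfl⟩ : ∃ y, x = y + 1 := ⟨x - 1, by omega⟩
      have := Nat.find_min hex (m := y) (by omega)
      exact this ⟨by omega, not_le.mp hcon⟩
    · have : x = u := le_antisymm h3 h1
      rw [this] at hcon
      exact hcon hu
  refine ⟨a, b, ha1, hb1, le_trans ha1 hb1, ?_, ?_, hb2⟩
  · intro x h1 h2
    rcases Nat.lt_or_ge u x with h3 | h3
    · exact hbmin x h3.le h2
    · exact ha2 x h1 h3
  · intro c hc
    by_contra hcon
    have := Nat.find_min hex2 (m := c) (by omega)
    apply this
    refine ⟨by omega, ?_⟩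
    intro x h1 h2
    rcases Nat.lt_or_ge c x with h3 | h3
    · exact ha2 x (by omega) h2
    · have : x = c := le_antisymm h3 h1
      rw [this]
      exact not_lt.mp hcon

theorem sum_le_excess {H : ℕ → ℕ} (hH : ∃ N, ∀ w, N ≤ w → H w = 0) (c : ℕ → ℕ) (i M : ℕ)
    (hc : ∀ u x, u < M → u ≤ x → x ≤ u + i → c u ≤ H x) :
    ∑ u ∈ Finset.range M, c u ≤ excess (contiguousPartition H hH) i := by
  classical
  have hrun : ∀ u t, ∃ ab : ℕ × ℕ, (u < M ∧ 1 ≤ t ∧ t ≤ c u) →
      (ab.1 ≤ u ∧ u ≤ ab.2 ∧ IsRun H t ab.1 ab.2) := by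
    intro u t
    by_cases h : u < M ∧ 1 ≤ t ∧ t ≤ c u
    · obtain ⟨a, b, h1, h2, h3⟩ := exists_run hH h.2.1
        (le_trans h.2.2 (hc u u h.1 le_rfl (by omega)))
      exact ⟨(a, b), fun _ => ⟨h1, h2, h3⟩⟩
    · exact ⟨(0, 0), fun h' => absurd h' h⟩
  choose ab hab using hrun
  have hrhs : excess (contiguousPartition H hH) i =
      ((runs_finite hH).toFinset.sigma
        (fun x => Finset.Ico x.2.1 (x.2.2 + 1 - i))).card := by
    unfold excess contiguousPartition
    rw [Multiset.map_map, Finset.card_sigma]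
    change ∑ x ∈ (runs_finite hH).toFinset, _ = _
    refine Finset.sum_congr rfl ?_
    intro x _
    simp only [Function.comp_apply, Nat.card_Ico]
    omega
  have hlhs : ∑ u ∈ Finset.range M, c u =
      ((Finset.range M).sigma (fun u => Finset.Icc 1 (c u))).card := by
    rw [Finset.card_sigma]
    refine Finset.sum_congr rfl ?_
    intro u _
    simp
  rw [hrhs, hlhs]
  refine Finset.card_le_card_of_injOn
    (fun y => ⟨(y.2, (ab y.1 y.2).1, (ab y.1 y.2).2), y.1⟩) ?_ ?_
  · rintro ⟨u, t⟩ hy
    simp only [Finset.coe_sigma, Set.mem_sigma_iff, Finset.mem_coe, Finset.mem_range,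
      Finset.mem_Icc] at hy
    obtain ⟨h1, h2, h3⟩ := hab u t hy
    simp only [Finset.coe_sigma, Set.mem_sigma_iff, Finset.mem_coe, Set.Finite.mem_toFinset,
      Finset.mem_Ico]
    refine ⟨⟨hy.2.1, h3⟩, h1, ?_⟩
    by_contra hcon
    have h4 : (ab u t).2 + 1 ≤ u + i := by omega
    have h5 := hc u ((ab u t).2 + 1) hy.1 (by omega) h4
    have h6 := h3.2.2.2
    have h7 := hy.2.2
    omega
  · rintro ⟨u, t⟩ _ ⟨u', t'⟩ _ heq
    simp only [Sigma.mk.injEq, Prod.mk.injEq, heq_eq_eq] at heq
    obtain ⟨⟨h1, -⟩, h2⟩ := heq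
    subst h1
    subst h2
    rfl

/-! ### Ranks of powers from the Jordan type -/

theorem jordan_pow {k V : Type*} [Field k] [AddCommGroup V] [Module k V] (f : V →ₗ[k] V)
    {n : ℕ} {p : Fin n → ℕ} (b : Basis (Σ i : Fin n, Fin (p i)) k V)
    (hb : ∀ (i : Fin n) (j : Fin (p i)),
      f (b ⟨i, j⟩) = if h : (j : ℕ) + 1 < p i then b ⟨i, ⟨(j : ℕ) + 1, h⟩⟩ else 0) (m : ℕ) :
    ∀ (i : Fin n) (j : Fin (p i)),
      (f ^ m) (b ⟨i, j⟩) = if h : (j : ℕ) + m < p i then b ⟨i, ⟨(j : ℕ) + m, h⟩⟩ else 0 := by
  induction m with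
  | zero =>
    intro i j
    simp
  | succ m ih =>
    intro i j
    rw [pow_succ', Module.End.mul_apply, ih i j]
    by_cases h : (j : ℕ) + m < p i
    · rw [dif_pos h, hb]
      by_cases h2 : (j : ℕ) + m + 1 < p i
      · rw [dif_pos h2, dif_pos (show (j : ℕ) + (m + 1) < p i by omega)]
        rfl
      · rw [dif_neg h2, dif_neg (show ¬ (j : ℕ) + (m + 1) < p i by omega)]
    · rw [dif_neg h, map_zero, dif_neg (show ¬ (j : ℕ) + (m + 1) < p i by omega)]

theorem rank_pow {k V : Type*} [Field k] [AddCommGroup V] [Module k V] {f : V →ₗ[k] V}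
    {P : Multiset ℕ} (hP : IsJordanType f P) (m : ℕ) :
    finrank k (LinearMap.range (f ^ m)) = excess P m := by
  classical
  obtain ⟨n, p, b, hpos, rfl, hb⟩ := hP
  have hpow := jordan_pow f b hb m
  let g : (Σ i : Fin n, Fin (p i - m)) → (Σ i : Fin n, Fin (p i)) :=
    fun x => ⟨x.1, ⟨(x.2 : ℕ) + m, by have := x.2.2; omega⟩⟩
  have hg : Function.Injective g := by
    rintro ⟨i, j⟩ ⟨i', j'⟩ h
    simp only [g, Sigma.mk.injEq] at h
    obtain ⟨rfl, h⟩ := h
    simp only [heq_eq_eq, Fin.mk.injEq, Nat.add_right_cancel_iff] at h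
    rw [Sigma.mk.injEq]
    exact ⟨rfl, heq_of_eq (Fin.ext h)⟩
  have hli : LinearIndependent k (fun x => b (g x)) := b.linearIndependent.comp g hg
  have hspan : LinearMap.range (f ^ m) = Submodule.span k (Set.range fun x => b (g x)) := by
    apply le_antisymm
    · rw [LinearMap.range_eq_map, ← b.span_eq, Submodule.map_span, Submodule.span_le]
      rintro _ ⟨_, ⟨⟨i, j⟩, rfl⟩, rfl⟩
      rw [hpow]
      by_cases h : (j : ℕ) + m < p i
      · rw [dif_pos h]
        exact Submodule.subset_span ⟨⟨i, ⟨(j : ℕ), by omega⟩⟩, rfl⟩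
      · rw [dif_neg h]
        exact Submodule.zero_mem _
    · rw [Submodule.span_le]
      rintro _ ⟨⟨i, j⟩, rfl⟩
      refine ⟨b ⟨i, ⟨(j : ℕ), by have := j.2; omega⟩⟩, ?_⟩
      rw [hpow, dif_pos (show (j : ℕ) + m < p i by have := j.2; omega)]
  rw [hspan, finrank_span_eq_card hli, Fintype.card_sigma]
  unfold excess
  rw [Multiset.map_map]
  change _ = ∑ i, _
  refine Finset.sum_congr rfl ?_
  intro i _
  simp

/-! ### Existence and uniqueness of the Jordan type -/

section Existence

open Polynomial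
open scoped DirectSum

/-- The module `k[X] / (X ^ e)` has a `k`-basis on which `X` acts as a Jordan block. -/
theorem exists_basis_quotient (k : Type*) [Field k] (e : ℕ) :
    ∃ b : Basis (Fin e) k (k[X] ⧸ Submodule.span k[X] {(X : k[X]) ^ e}),
      ∀ j : Fin e, (X : k[X]) • b j = if h : (j : ℕ) + 1 < e then b ⟨(j : ℕ) + 1, h⟩ else 0 := by
  let pb := AdjoinRoot.powerBasis' (R := k) (monic_X_pow (R := k) e)
  have hdim : pb.dim = e := natDegree_X_pow (R := k) e
  let b : Basis (Fin e) k (k[X] ⧸ Submodule.span k[X] {(X : k[X]) ^ e}) :=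
    pb.basis.reindex (finCongr hdim)
  have hb : ∀ j : Fin e, b j = Submodule.Quotient.mk ((X : k[X]) ^ (j : ℕ)) := by
    intro j
    change pb.basis.reindex (finCongr hdim) j = _
    rw [Basis.reindex_apply, pb.basis_eq_pow]
    change (AdjoinRoot.mk ((X : k[X]) ^ e) X) ^ (j : ℕ) = _
    rw [← map_pow]
    rfl
  refine ⟨b, ?_⟩
  intro j
  rw [hb, ← Submodule.Quotient.mk_smul]
  by_cases h : (j : ℕ) + 1 < e
  · rw [dif_pos h, hb, smul_eq_mul, ← pow_succ']
  · rw [dif_neg h, smul_eq_mul, ← pow_succ', Submodule.Quotient.mk_eq_zero]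
    have : (j : ℕ) + 1 = e := by have := j.2; omega
    rw [this]
    exact Submodule.mem_span_singleton_self _

theorem exists_isJordanType {k V : Type*} [Field k] [AddCommGroup V] [Module k V]
    [FiniteDimensional k V] (f : V →ₗ[k] V) (hf : IsNilpotent f) : ∃ P, IsJordanType f P := by
  classical
  obtain ⟨N, hN⟩ := hf
  have htors : Module.IsTorsion' (Module.AEval' f) (Submonoid.powers (X : k[X])) := by
    intro x
    refine ⟨⟨X ^ N, N, rfl⟩, ?_⟩
    obtain ⟨v, rfl⟩ := (Module.AEval'.of f).surjective x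
    change (X ^ N : k[X]) • Module.AEval'.of f v = 0
    rw [Module.AEval'.X_pow_smul_of, hN]
    simp
  obtain ⟨d, e, ⟨φ⟩⟩ := Module.torsion_by_prime_power_decomposition (irreducible_X) htors
  choose b hb using fun i : Fin d => exists_basis_quotient k (e i)
  let B : Basis (Σ i : Fin d, Fin (e i)) k (⨁ i : Fin d, k[X] ⧸ Submodule.span k[X] {(X : k[X]) ^ e i}) :=
    DFinsupp.basis b
  have hB : ∀ x : Σ i : Fin d, Fin (e i), B x =
      DirectSum.lof k[X] (Fin d) (fun i => k[X] ⧸ Submodule.span k[X] {(X : k[X]) ^ e i}) x.1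
        (b x.1 x.2) := by
    rintro ⟨i, j⟩
    rw [Basis.apply_eq_iff]
    refine Finsupp.ext ?_
    rintro ⟨i', j'⟩
    change (b i').repr ((DFinsupp.single i (b i j) :
      Π₀ i : Fin d, k[X] ⧸ Submodule.span k[X] {(X : k[X]) ^ e i}) i') j' = _
    by_cases h : i = i'
    · subst h
      rw [DFinsupp.single_eq_same, Basis.repr_self, Finsupp.single_apply, Finsupp.single_apply]
      by_cases h' : j = j'
      · subst h'
        simp
      · rw [if_neg h', if_neg]
        intro h''
        apply h'
        rw [Sigma.mk.injEq, heq_eq_eq] at h''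
        exact h''.2
    · rw [DFinsupp.single_eq_of_ne (Ne.symm h), map_zero, Finsupp.single_apply, if_neg]
      · rfl
      · intro h''
        exact h (congrArg Sigma.fst h'')
  let C : Basis (Σ i : Fin d, Fin (e i)) k V :=
    (B.map (φ.restrictScalars k).symm).map (Module.AEval'.of f).symm
  have hC : ∀ x, C x = (Module.AEval'.of f).symm (φ.symm (B x)) := fun x => rfl
  have hfC : ∀ (i : Fin d) (j : Fin (e i)),
      f (C ⟨i, j⟩) = if h : (j : ℕ) + 1 < e i then C ⟨i, ⟨(j : ℕ) + 1, h⟩⟩ else 0 := by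
    intro i j
    have h1 : Module.AEval'.of f (f (C ⟨i, j⟩)) = (X : k[X]) • φ.symm (B ⟨i, j⟩) := by
      rw [← Module.AEval'.X_smul_of, hC, LinearEquiv.apply_symm_apply]
    have h2 : f (C ⟨i, j⟩) = (Module.AEval'.of f).symm (φ.symm ((X : k[X]) • B ⟨i, j⟩)) := by
      rw [map_smul, ← h1, LinearEquiv.symm_apply_apply]
    rw [h2, hB, ← map_smul, hb]
    by_cases h : (j : ℕ) + 1 < e i
    · rw [dif_pos h, dif_pos h, hC, hB]
    · rw [dif_neg h, dif_neg h, map_zero, map_zero, map_zero]
  -- discard the empty strings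
  let T := {i : Fin d // 0 < e i}
  let ψ : Fin (Fintype.card T) ≃ T := (Fintype.equivFin T).symm
  let g : (Σ t : Fin (Fintype.card T), Fin (e (ψ t).1)) → (Σ i : Fin d, Fin (e i)) :=
    fun x => ⟨(ψ x.1).1, x.2⟩
  have hg : Function.Bijective g := by
    constructor
    · rintro ⟨t, j⟩ ⟨t', j'⟩ h
      simp only [g, Sigma.mk.injEq] at h
      obtain ⟨h1, h2⟩ := h
      have h3 : t = t' := ψ.injective (Subtype.ext h1)
      subst h3
      rw [heq_eq_eq] at h2
      rw [h2]
    · rintro ⟨i, j⟩
      obtain ⟨t, ht⟩ := ψ.surjective ⟨i, lt_of_le_of_lt (Nat.zero_le _) j.2⟩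
      have h1 : (ψ t).1 = i := by rw [ht]
      subst h1
      exact ⟨⟨t, j⟩, rfl⟩
  refine ⟨_, Fintype.card T, fun t => e (ψ t).1, C.reindex (Equiv.ofBijective g hg).symm,
    fun t => (ψ t).2, rfl, ?_⟩
  intro t j
  have hre : ∀ x, (C.reindex (Equiv.ofBijective g hg).symm) x = C (g x) := by
    intro x
    rw [Basis.reindex_apply, Equiv.symm_symm]
    rfl
  rw [hre]
  change f (C ⟨(ψ t).1, j⟩) = _
  rw [hfC]
  by_cases h : (j : ℕ) + 1 < e (ψ t).1
  · rw [dif_pos h, dif_pos h, hre]
  · rw [dif_neg h, dif_neg h]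

theorem jordanType_unique {k V : Type*} [Field k] [AddCommGroup V] [Module k V] {f : V →ₗ[k] V}
    {P Q : Multiset ℕ} (hP : IsJordanType f P) (hQ : IsJordanType f Q) : P = Q := by
  have hpos : ∀ {P : Multiset ℕ}, IsJordanType f P → 0 ∉ P := by
    rintro P ⟨n, p, b, hpos, rfl, -⟩ h
    rw [Multiset.mem_map] at h
    obtain ⟨i, -, hi⟩ := h
    have := hpos i
    omega
  refine eq_of_excess_eq (hpos hP) (hpos hQ) fun i => ?_
  rw [← rank_pow hP, ← rank_pow hQ]

end Existence

/-! ### Linear algebra -/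

theorem rank_bound {k V : Type*} [Field k] [AddCommGroup V] [Module k V] [FiniteDimensional k V]
    (h : V →ₗ[k] V) {W' W Z : Submodule k V} (hW : W' ≤ W) (hZ : W'.map h ≤ Z) :
    finrank k (W.map h ⊔ Z : Submodule k V) + finrank k W' ≤ finrank k Z + finrank k W := by
  obtain ⟨C, hC1, hC2⟩ : ∃ C : Submodule k V, W' ⊔ C = W ∧ Disjoint W' C := by
    obtain ⟨D, hD⟩ := Submodule.exists_isCompl W'
    refine ⟨D ⊓ W, ?_, ?_⟩
    · rw [← sup_inf_assoc_of_le D hW, hD.sup_eq_top, top_inf_eq]
    · exact hD.disjoint.mono_right inf_le_left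
  have h1 : finrank k W = finrank k W' + finrank k C := by
    have := Submodule.finrank_sup_add_finrank_inf_eq W' C
    rw [hC1, hC2.eq_bot, finrank_bot] at this
    omega
  have h2 : W.map h ⊔ Z = C.map h ⊔ Z := by
    rw [← hC1, Submodule.map_sup]
    apply le_antisymm
    · exact sup_le (sup_le (hZ.trans le_sup_right) le_sup_left) le_sup_right
    · exact sup_le (le_sup_right.trans le_sup_left) le_sup_right
  have h3 : finrank k (C.map h ⊔ Z : Submodule k V) ≤ finrank k (C.map h) + finrank k Z := by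
    have := Submodule.finrank_sup_add_finrank_inf_eq (C.map h) Z
    omega
  have h4 : finrank k (C.map h) ≤ finrank k C := Submodule.finrank_map_le h C
  rw [h2]
  omega

/-! ### The Hilbert function of a local algebra -/

section Algebra

variable (k : Type*) [Field k] (A : Type*) [CommRing A] [IsLocalRing A] [Algebra k A]

/-- The Hilbert function of the local algebra `A`: `H(A)_i = dim_k (𝔪 ^ i / 𝔪 ^ (i + 1))`. -/
noncomputable def hilbertFunction (i : ℕ) : ℕ :=
  finrank k (↥(IsLocalRing.maximalIdeal A ^ i) ⧸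
    (IsLocalRing.maximalIdeal A ^ (i + 1)).submoduleOf (IsLocalRing.maximalIdeal A ^ i))

/-- The power `𝔪 ^ i` as a `k`-subspace. -/
def mpow (i : ℕ) : Submodule k A := (IsLocalRing.maximalIdeal A ^ i).restrictScalars k

variable {k A}

theorem mem_mpow {i : ℕ} {x : A} : x ∈ mpow k A i ↔ x ∈ IsLocalRing.maximalIdeal A ^ i := Iff.rfl

theorem mpow_anti {i j : ℕ} (h : i ≤ j) : mpow k A j ≤ mpow k A i := by
  intro x hx
  exact Ideal.pow_le_pow_right h hx

variable [FiniteDimensional k A]

theorem hilbert_add (i : ℕ) :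
    hilbertFunction k A i + finrank k (mpow k A (i + 1)) = finrank k (mpow k A i) := by
  have hle : IsLocalRing.maximalIdeal A ^ (i + 1) ≤ IsLocalRing.maximalIdeal A ^ i :=
    Ideal.pow_le_pow_right (Nat.le_succ i)
  have e1 := Submodule.finrank_quotient_add_finrank
    (((IsLocalRing.maximalIdeal A ^ (i + 1)).submoduleOf
      (IsLocalRing.maximalIdeal A ^ i)).restrictScalars k)
  have e2 := (Submodule.Quotient.restrictScalarsEquiv k
    ((IsLocalRing.maximalIdeal A ^ (i + 1)).submoduleOf
      (IsLocalRing.maximalIdeal A ^ i))).finrank_eq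
  have e3 := ((Submodule.submoduleOfEquivOfLe hle).restrictScalars k).finrank_eq
  change finrank k (↥(IsLocalRing.maximalIdeal A ^ i) ⧸
    (IsLocalRing.maximalIdeal A ^ (i + 1)).submoduleOf (IsLocalRing.maximalIdeal A ^ i)) +
    finrank k ↥(IsLocalRing.maximalIdeal A ^ (i + 1)) =
    finrank k ↥(IsLocalRing.maximalIdeal A ^ i)
  rw [← e2, ← e3]
  exact e1

theorem mpow_eventually : ∃ N, ∀ w, N ≤ w → mpow k A w = ⊥ := by
  have : IsArtinianRing A := IsArtinianRing.of_finite k A
  have h := IsArtinianRing.isNilpotent_jacobson_bot (R := A)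
  rw [IsLocalRing.jacobson_eq_maximalIdeal ⊥ bot_ne_top] at h
  obtain ⟨N, hN⟩ := h
  refine ⟨N, fun w hw => ?_⟩
  rw [eq_bot_iff]
  intro x hx
  have hx' : x ∈ IsLocalRing.maximalIdeal A ^ N := Ideal.pow_le_pow_right hw hx
  rw [hN] at hx'
  exact hx'

theorem hilbert_eventually : ∃ N, ∀ w, N ≤ w → hilbertFunction k A w = 0 := by
  obtain ⟨N, hN⟩ := mpow_eventually (k := k) (A := A)
  refine ⟨N, fun w hw => ?_⟩
  have h := hilbert_add (k := k) (A := A) w
  rw [hN w hw, hN (w + 1) (by omega), finrank_bot] at h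
  omega

theorem hilbert_sum (a n : ℕ) :
    (∑ j ∈ Finset.range n, hilbertFunction k A (a + j)) + finrank k (mpow k A (a + n)) =
      finrank k (mpow k A a) := by
  induction n with
  | zero => simp
  | succ n ih =>
    have h := hilbert_add (k := k) (A := A) (a + n)
    rw [Finset.sum_range_succ, ← ih, ← h, ← add_assoc a n 1]
    ring

omit [FiniteDimensional k A] in
theorem map_pow_le {ℓ : A} (hℓ : ℓ ∈ IsLocalRing.maximalIdeal A) (i u : ℕ) :
    (mpow k A u).map ((LinearMap.mulLeft k ℓ) ^ i) ≤ mpow k A (u + i) := by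
  rintro _ ⟨x, hx, rfl⟩
  rw [LinearMap.pow_mulLeft, LinearMap.mulLeft_apply, mem_mpow, add_comm, pow_add]
  exact Ideal.mul_mem_mul (Ideal.pow_mem_pow hℓ i) hx

theorem rank_le {ℓ : A} (hℓ : ℓ ∈ IsLocalRing.maximalIdeal A) (i u : ℕ) :
    finrank k (LinearMap.range ((LinearMap.mulLeft k ℓ) ^ i)) + finrank k (mpow k A u) ≤
      finrank k (mpow k A (u + i)) + finrank k (mpow k A 0) := by
  have h := rank_bound ((LinearMap.mulLeft k ℓ) ^ i) (W' := mpow k A u) (W := mpow k A 0)
    (mpow_anti (Nat.zero_le u)) (map_pow_le hℓ i u)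
  have h0 : mpow k A 0 = ⊤ := by
    rw [eq_top_iff]
    intro x _
    rw [mem_mpow, pow_zero, Ideal.one_eq_top]
    trivial
  have h1 : finrank k (LinearMap.range ((LinearMap.mulLeft k ℓ) ^ i)) ≤
      finrank k ((mpow k A 0).map ((LinearMap.mulLeft k ℓ) ^ i) ⊔ mpow k A (u + i) :
        Submodule k A) := by
    refine Submodule.finrank_mono (R := k) (M := A) ?_
    rw [h0, LinearMap.range_eq_map]
    exact le_sup_left
  omega

theorem rank_le' {ℓ : A} (hℓ : ℓ ∈ IsLocalRing.maximalIdeal A) {s v e : ℕ} (hsv : s ≤ v)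
    (hve : v ≤ e) :
    finrank k (LinearMap.range ((LinearMap.mulLeft k ℓ) ^ (e - s))) + finrank k (mpow k A s) +
      finrank k (mpow k A (v + 1)) ≤
      finrank k (mpow k A 0) + finrank k (mpow k A (e + 1)) +
      finrank k ((mpow k A s).map ((LinearMap.mulLeft k ℓ) ^ (v - s)) ⊔ mpow k A (v + 1) :
        Submodule k A) := by
  have h0 : mpow k A 0 = ⊤ := by
    rw [eq_top_iff]
    intro x _
    rw [mem_mpow, pow_zero, Ideal.one_eq_top]
    trivial
  set f := LinearMap.mulLeft k ℓ with hf
  have h := rank_bound (f ^ (e - s)) (W' := mpow k A s) (W := mpow k A 0)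
    (Z := (mpow k A s).map (f ^ (e - s))) (mpow_anti (Nat.zero_le s)) le_rfl
  have h1 : finrank k (LinearMap.range (f ^ (e - s))) ≤
      finrank k ((mpow k A 0).map (f ^ (e - s)) ⊔ (mpow k A s).map (f ^ (e - s)) :
        Submodule k A) := by
    refine Submodule.finrank_mono (R := k) (M := A) ?_
    rw [h0, LinearMap.range_eq_map]
    exact le_sup_left
  have h2 := rank_bound (f ^ (e - v)) (W' := mpow k A (v + 1))
    (W := (mpow k A s).map (f ^ (v - s)) ⊔ mpow k A (v + 1)) (Z := mpow k A (e + 1))
    le_sup_right (by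
      have := map_pow_le (k := k) hℓ (e - v) (v + 1)
      rwa [show v + 1 + (e - v) = e + 1 by omega] at this)
  have h3 : finrank k ((mpow k A s).map (f ^ (e - s))) ≤
      finrank k (((mpow k A s).map (f ^ (v - s)) ⊔ mpow k A (v + 1)).map (f ^ (e - v)) ⊔
        mpow k A (e + 1) : Submodule k A) := by
    refine Submodule.finrank_mono (R := k) (M := A) (le_trans ?_ le_sup_left)
    rintro _ ⟨x, hx, rfl⟩
    refine ⟨(f ^ (v - s)) x, Submodule.mem_sup_left ⟨x, hx, rfl⟩, ?_⟩
    rw [← Module.End.mul_apply, ← pow_add, show e - v + (v - s) = e - s by omega]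
  omega

/-- If `𝔪 ^ v ⊆ ℓ 𝔪 ^ (v - 1) + 𝔪 ^ (v + 1)`, then the Hilbert function is nonincreasing
from `v` on. -/
theorem nonincreasing {ℓ : A} (hℓ : ℓ ∈ IsLocalRing.maximalIdeal A) {v : ℕ}
    (hv : mpow k A (v + 1) ≤ (mpow k A v).map (LinearMap.mulLeft k ℓ) ⊔ mpow k A (v + 2))
    (w : ℕ) (hw : v + 1 ≤ w) : hilbertFunction k A w ≤ hilbertFunction k A (v + 1) := by
  set f := LinearMap.mulLeft k ℓ with hf
  have hI : IsLocalRing.maximalIdeal A ^ (v + 1) ≤
      Ideal.span {ℓ} * IsLocalRing.maximalIdeal A ^ v ⊔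
        IsLocalRing.maximalIdeal A ^ (v + 2) := by
    intro x hx
    obtain ⟨y, ⟨z, hz, rfl⟩, t, ht, rfl⟩ := Submodule.mem_sup.mp (hv hx)
    refine Submodule.mem_sup.mpr ⟨ℓ * z, ?_, t, ht, rfl⟩
    exact Ideal.mem_span_singleton_mul.mpr ⟨z, hz, rfl⟩
  have hJ : ∀ j, mpow k A (v + 1 + j) ≤ (mpow k A (v + j)).map f ⊔ mpow k A (v + 2 + j) := by
    intro j x hx
    have h1 : IsLocalRing.maximalIdeal A ^ (v + 1 + j) ≤
        Ideal.span {ℓ} * IsLocalRing.maximalIdeal A ^ (v + j) ⊔
          IsLocalRing.maximalIdeal A ^ (v + 2 + j) := by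
      have := Ideal.mul_mono_left (K := IsLocalRing.maximalIdeal A ^ j) hI
      rw [Ideal.sup_mul, mul_assoc, ← pow_add, ← pow_add, ← pow_add] at this
      exact this
    obtain ⟨y, hy, t, ht, rfl⟩ := Submodule.mem_sup.mp (h1 hx)
    obtain ⟨z, hz, rfl⟩ := Ideal.mem_span_singleton_mul.mp hy
    exact Submodule.mem_sup.mpr ⟨ℓ * z, ⟨z, hz, rfl⟩, t, ht, rfl⟩
  have hstep : ∀ j, hilbertFunction k A (v + 1 + j + 1) ≤ hilbertFunction k A (v + 1 + j) := by
    intro j
    have hmap : (mpow k A (v + 1 + (j + 1))).map f ≤ mpow k A (v + 2 + (j + 1)) := by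
      have := map_pow_le (k := k) hℓ 1 (v + 1 + (j + 1))
      rw [pow_one] at this
      rwa [show v + 1 + (j + 1) + 1 = v + 2 + (j + 1) by omega] at this
    have h1 := rank_bound f (W' := mpow k A (v + 1 + (j + 1))) (W := mpow k A (v + (j + 1)))
      (mpow_anti (by omega)) hmap
    have h2 := Submodule.finrank_mono (hJ (j + 1))
    have h3 := hilbert_add (k := k) (A := A) (v + 1 + j)
    have h4 := hilbert_add (k := k) (A := A) (v + 1 + j + 1)
    rw [show v + 1 + (j + 1) = v + 1 + j + 1 by omega, show v + (j + 1) = v + 1 + j by omega,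
      show v + 2 + (j + 1) = v + 1 + j + 1 + 1 by omega] at h1 h2
    omega
  obtain ⟨n, rfl⟩ := Nat.exists_eq_add_of_le hw
  induction n with
  | zero => exact le_rfl
  | succ n ih =>
    exact le_trans (hstep n) (ih (by omega))

/-! ### The main argument -/

theorem excess_le {ℓ : A} (hℓ : ℓ ∈ IsLocalRing.maximalIdeal A) {P : Multiset ℕ}
    (hP : IsJordanType (LinearMap.mulLeft k ℓ) P) (i u : ℕ) :
    excess P i + finrank k (mpow k A u) ≤
      finrank k (mpow k A (u + i)) + finrank k (mpow k A 0) := by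
  rw [← rank_pow hP i]
  exact rank_le hℓ i u

/-- If the Jordan type dominates the contiguous partition, then `H` is unimodal. -/
theorem unimodal_of_dominates {ℓ : A} (hℓ : ℓ ∈ IsLocalRing.maximalIdeal A) {P : Multiset ℕ}
    (hP : IsJordanType (LinearMap.mulLeft k ℓ) P)
    (hdom : Dominates P (contiguousPartition (hilbertFunction k A) hilbert_eventually)) :
    IsUnimodal (hilbertFunction k A) := by
  classical
  set H := hilbertFunction k A with hH
  by_contra hnot
  unfold IsUnimodal at hnot
  push Not at hnot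
  obtain ⟨u₀, v₀, w₀, huv₀, hvw₀, hlt₀⟩ := hnot
  rw [lt_min_iff] at hlt₀
  -- a valley point `v` with minimal `H v`
  obtain ⟨v, ⟨⟨u, huv, hHu⟩, w, hvw, hHw⟩, hmin⟩ : ∃ v,
      ((∃ u, u < v ∧ H v < H u) ∧ ∃ w, v < w ∧ H v < H w) ∧
      ∀ x, ((∃ u, u < x ∧ H x < H u) ∧ ∃ w, x < w ∧ H x < H w) → H v ≤ H x := by
    obtain ⟨v, hv, hv'⟩ := WellFounded.has_min (measure H).wf
      {v | (∃ u, u < v ∧ H v < H u) ∧ ∃ w, v < w ∧ H v < H w}
      ⟨v₀, ⟨u₀, huv₀, hlt₀.1⟩, w₀, hvw₀, hlt₀.2⟩
    exact ⟨v, hv, fun x hx => not_lt.mp (hv' x hx)⟩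
  obtain ⟨v', rfl⟩ : ∃ v', v = v' + 1 := ⟨v - 1, by omega⟩
  -- it suffices to prove one inclusion
  suffices hsurj : mpow k A (v' + 1) ≤
      (mpow k A v').map (LinearMap.mulLeft k ℓ) ⊔ mpow k A (v' + 2) by
    have := nonincreasing hℓ hsurj w hvw.le
    rw [← hH] at this
    omega
  by_cases hzero : H (v' + 1) = 0
  · have h1 := hilbert_add (k := k) (A := A) (v' + 1)
    rw [← hH, hzero, zero_add] at h1
    have h2 : mpow k A (v' + 1 + 1) = mpow k A (v' + 1) :=
      Submodule.eq_of_le_of_finrank_eq (mpow_anti (Nat.le_succ _)) h1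
    rw [show v' + 2 = v' + 1 + 1 by omega, h2]
    exact le_sup_right
  -- the maximal run containing `v`
  obtain ⟨s, e, hsv, hve, hse, hrow, hleft, hright⟩ :=
    exists_run (hilbert_eventually (k := k) (A := A)) (t := H (v' + 1)) (u := v' + 1)
      (by omega) le_rfl
  rw [← hH] at hrow hleft hright
  set v := v' + 1 with hv
  -- `s < v`
  have hsu : s ≤ u := by
    by_contra hcon
    obtain ⟨s', rfl⟩ : ∃ s', s = s' + 1 := ⟨s - 1, by omega⟩
    have h1 := hleft s' rfl
    have hne : u ≠ s' := by
      rintro rfl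
      omega
    have := hmin s' ⟨⟨u, by omega, by omega⟩, v, by omega, by omega⟩
    omega
  have hsv' : s < v := by omega
  -- the left part is nondecreasing
  have hL : ∀ x y, x < s → x ≤ y → y ≤ e → H x ≤ H y := by
    intro x y hx hxy hye
    by_contra hcon
    obtain ⟨s', rfl⟩ : ∃ s', s = s' + 1 := ⟨s - 1, by omega⟩
    have h1 := hleft s' rfl
    have hxy' : x < y := by
      rcases Nat.lt_or_ge x y with h | h
      · exact h
      · exfalso
        have : x = y := le_antisymm hxy h
        rw [this] at hcon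
        exact hcon le_rfl
    by_cases hyv : H y < H v
    · -- `y` is a lower valley point
      have hys : y < s' + 1 := by
        by_contra hcon2
        have := hrow y (by omega) hye
        omega
      have := hmin y ⟨⟨x, hxy', by omega⟩, v, by omega, hyv⟩
      omega
    · have hne : x ≠ s' := by
        rintro rfl
        omega
      have := hmin s' ⟨⟨x, by omega, by omega⟩, v, by omega, by omega⟩
      omega
  -- the right part is nonincreasing
  have hR : ∀ x y, s < x → x ≤ y → e < y → H y ≤ H x := by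
    intro x y hx hxy hye
    by_contra hcon
    have hxy' : x < y := by
      rcases Nat.lt_or_ge x y with h | h
      · exact h
      · exfalso
        have : x = y := le_antisymm hxy h
        rw [this] at hcon
        exact hcon le_rfl
    by_cases hxv : H x < H v
    · have hxe : e < x := by
        by_contra hcon2
        have := hrow x (by omega) (by omega)
        omega
      have := hmin x ⟨⟨v, by omega, hxv⟩, y, hxy', by omega⟩
      omega
    · have hne : y ≠ e + 1 := by
        rintro rfl
        omega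
      have := hmin (e + 1) ⟨⟨v, by omega, by omega⟩, y, by omega, by omega⟩
      omega
  -- the lower bound for the contiguous partition
  obtain ⟨N, hN⟩ := mpow_eventually (k := k) (A := A)
  have hlow := sum_le_excess (hilbert_eventually (k := k) (A := A))
    (fun x => if x < s then H x else if x = s then H v else H (x + (e - s))) (e - s)
    (s + 1 + N) (by
      intro x y _ hxy hyx
      rw [← hH]
      by_cases h1 : x < s
      · simp only [h1, if_true]
        exact hL x y h1 hxy (by omega)
      · by_cases h2 : x = s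
        · subst h2
          simp only [lt_irrefl, if_false, if_true]
          exact hrow y hxy (by omega)
        · simp only [h1, h2, if_false]
          exact hR y (x + (e - s)) (by omega) hyx (by omega))
  rw [Finset.sum_range_add, Finset.sum_range_succ] at hlow
  have e1 : ∑ x ∈ Finset.range s,
      (if x < s then H x else if x = s then H v else H (x + (e - s))) =
      ∑ x ∈ Finset.range s, H (0 + x) := by
    refine Finset.sum_congr rfl ?_
    intro x hx
    rw [if_pos (Finset.mem_range.mp hx), zero_add]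
  have e2 : ∑ x ∈ Finset.range N,
      (if s + 1 + x < s then H (s + 1 + x) else if s + 1 + x = s then H v
        else H (s + 1 + x + (e - s))) =
      ∑ x ∈ Finset.range N, H (e + 1 + x) := by
    refine Finset.sum_congr rfl ?_
    intro x hx
    rw [if_neg (by omega), if_neg (by omega)]
    congr 1
    omega
  rw [e1, e2] at hlow
  simp only [lt_irrefl, if_false, if_true] at hlow
  have s1 := hilbert_sum (k := k) (A := A) 0 s
  have s2 := hilbert_sum (k := k) (A := A) (e + 1) N
  rw [hN (e + 1 + N) (by omega), finrank_bot, add_zero] at s2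
  rw [zero_add] at s1
  have h3 := excess_le_of_dominates hdom (e - s)
  have h4 := rank_pow hP (e - s)
  have h5 := rank_le' (k := k) hℓ hsv hve
  have h6 := hilbert_add (k := k) (A := A) v
  rw [← hH] at s1 s2 h6
  have h7 : finrank k (mpow k A v) ≤
      finrank k ((mpow k A s).map ((LinearMap.mulLeft k ℓ) ^ (v - s)) ⊔ mpow k A (v + 1) :
        Submodule k A) := by
    omega
  have h8 : (mpow k A s).map ((LinearMap.mulLeft k ℓ) ^ (v - s)) ⊔ mpow k A (v + 1) ≤
      mpow k A v := by
    refine sup_le ?_ (mpow_anti (Nat.le_succ v))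
    have := map_pow_le (k := k) hℓ (v - s) s
    rwa [show s + (v - s) = v by omega] at this
  have h9 := Submodule.eq_of_le_of_finrank_le h8 h7
  rw [← h9]
  refine sup_le (le_trans ?_ le_sup_left) le_sup_right
  rintro _ ⟨x, hx, rfl⟩
  refine ⟨((LinearMap.mulLeft k ℓ) ^ (v' - s)) x, ?_, ?_⟩
  · have := map_pow_le (k := k) hℓ (v' - s) s ⟨x, hx, rfl⟩
    rwa [show s + (v' - s) = v' by omega] at this
  · rw [← Module.End.mul_apply, ← pow_succ', show v' - s + 1 = v - s by omega]

/-- If `H` is unimodal, the contiguous partition dominates the Jordan type, in the sense of the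
numbers `excess`. -/
theorem excess_le_of_unimodal {ℓ : A} (hℓ : ℓ ∈ IsLocalRing.maximalIdeal A) {P : Multiset ℕ}
    (hP : IsJordanType (LinearMap.mulLeft k ℓ) P) (hU : IsUnimodal (hilbertFunction k A))
    (i : ℕ) :
    excess P i ≤
      excess (contiguousPartition (hilbertFunction k A) hilbert_eventually) i := by
  classical
  set H := hilbertFunction k A with hH
  obtain ⟨N, hN⟩ := mpow_eventually (k := k) (A := A)
  have hN' : ∀ w, N ≤ w → H w = 0 := by
    intro w hw
    have h := hilbert_add (k := k) (A := A) w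
    rw [hN w hw, hN (w + 1) (by omega), finrank_bot] at h
    omega
  -- the threshold
  obtain ⟨u₀, h1, h2⟩ : ∃ u₀, (∀ u, u < u₀ → H u ≤ H (u + i)) ∧
      (∀ u, u₀ ≤ u → H (u + i) ≤ H u) := by
    by_cases hex : ∃ u, H (u + i) < H u
    · refine ⟨Nat.find hex, fun u hu => not_lt.mp (Nat.find_min hex hu), ?_⟩
      intro u hu
      have hspec := Nat.find_spec hex
      set u₁ := Nat.find hex with hu₁
      rcases Nat.lt_or_ge u₁ u with h | h
      · by_contra hcon
        have hi : 0 < i := by
          rcases Nat.eq_zero_or_pos i with h0 | h0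
          · subst h0
            exact absurd hspec (lt_irrefl _)
          · exact h0
        have k1 := hU u₁ u (u + i) h (by omega)
        have k2 := hU u₁ (u₁ + i) (u + i) (by omega) (by omega)
        omega
      · have : u = u₁ := le_antisymm h hu
        rw [this]
        exact hspec.le
    · push Not at hex
      exact ⟨N, fun u _ => hex u, fun u hu => by rw [hN' (u + i) (by omega)]; exact Nat.zero_le _⟩
  have hlow := sum_le_excess (hilbert_eventually (k := k) (A := A))
    (fun x => min (H x) (H (x + i))) i (u₀ + N) (by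
      intro x y _ hxy hyx
      rw [← hH]
      rcases Nat.lt_or_ge x y with h | h
      · rcases Nat.lt_or_ge y (x + i) with h' | h'
        · exact hU x y (x + i) h h'
        · have : y = x + i := le_antisymm hyx h'
          rw [this]
          exact min_le_right _ _
      · have : y = x := le_antisymm h hxy
        rw [this]
        exact min_le_left _ _)
  rw [Finset.sum_range_add] at hlow
  have e1 : ∑ x ∈ Finset.range u₀, min (H x) (H (x + i)) = ∑ x ∈ Finset.range u₀, H (0 + x) := by
    refine Finset.sum_congr rfl ?_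
    intro x hx
    rw [min_eq_left (h1 x (Finset.mem_range.mp hx)), zero_add]
  have e2 : ∑ x ∈ Finset.range N, min (H (u₀ + x)) (H (u₀ + x + i)) =
      ∑ x ∈ Finset.range N, H (u₀ + i + x) := by
    refine Finset.sum_congr rfl ?_
    intro x hx
    rw [min_eq_right (h2 (u₀ + x) (by omega))]
    congr 1
    omega
  rw [e1, e2] at hlow
  have s1 := hilbert_sum (k := k) (A := A) 0 u₀
  have s2 := hilbert_sum (k := k) (A := A) (u₀ + i) N
  rw [hN (u₀ + i + N) (by omega), finrank_bot, add_zero] at s2
  rw [zero_add] at s1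
  rw [← hH] at s1 s2
  have h3 := excess_le (k := k) hℓ hP i u₀
  omega

end Algebra

/-- **The negated form of Q1**, for all finite-dimensional local algebras.  Let `A` be a
finite-dimensional commutative local `k`-algebra (for instance a local Artinian Gorenstein quotient
of a power series ring over `k`), with Hilbert function `H`, and let `ℓ` be an element of its
maximal ideal (for instance the image of a linear form).  The Jordan type `P` of multiplication by
`ℓ` exists and is unique, it does not strictly dominate the contiguous partition `P_c(H)`, and it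
can dominate `P_c(H)` only if `H` is unimodal. -/
theorem result (k : Type*) [Field k] (A : Type*) [CommRing A] [IsLocalRing A] [Algebra k A]
    [FiniteDimensional k A] (ℓ : A) (hℓ : ℓ ∈ IsLocalRing.maximalIdeal A) :
    (∃! P, IsJordanType (LinearMap.mulLeft k ℓ) P) ∧
    ∀ P, IsJordanType (LinearMap.mulLeft k ℓ) P →
      ¬ StrictlyDominates P (contiguousPartition (hilbertFunction k A) hilbert_eventually) ∧
      (Dominates P (contiguousPartition (hilbertFunction k A) hilbert_eventually) →
        IsUnimodal (hilbertFunction k A)) := by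
  constructor
  · have hnil : IsNilpotent (LinearMap.mulLeft k ℓ) := by
      obtain ⟨N, hN⟩ := mpow_eventually (k := k) (A := A)
      refine ⟨N, ?_⟩
      have h1 : ℓ ^ N ∈ mpow k A N := Ideal.pow_mem_pow hℓ N
      rw [hN N le_rfl, Submodule.mem_bot] at h1
      rw [LinearMap.pow_mulLeft, h1]
      ext x
      simp
    obtain ⟨P, hP⟩ := exists_isJordanType _ hnil
    exact ⟨P, hP, fun Q hQ => jordanType_unique hQ hP⟩
  · intro P hP
    refine ⟨?_, unimodal_of_dominates hℓ hP⟩
    rintro ⟨hdom, hne⟩
    apply hne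
    have hU := unimodal_of_dominates hℓ hP hdom
    apply eq_of_excess_eq
    · obtain ⟨n, p, b, hpos, rfl, -⟩ := hP
      intro h
      rw [Multiset.mem_map] at h
      obtain ⟨i, -, hi⟩ := h
      have := hpos i
      omega
    · unfold contiguousPartition
      intro h
      rw [Multiset.mem_map] at h
      obtain ⟨⟨t, a, b⟩, hx, hx'⟩ := h
      rw [Finset.mem_val, Set.Finite.mem_toFinset] at hx
      have := hx.2.1
      simp only at this hx'
      omega
    · intro i
      exact le_antisymm (excess_le_of_unimodal hℓ hP hU i) (excess_le_of_dominates hdom i)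

end Pool.Agent.Results.MP_728180_al.NoStrictDominance
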